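import Pool.Agent.K4H13.CV.Vec

/-!
# The dimension of the space of cusp forms of weight two
-/

set_option autoImplicit false

open Complex Filter Topology Set UpperHalfPlane MatrixGroups CongruenceSubgroup
open Matrix.SpecialLinearGroup
open scoped Manifold ModularForm

namespace Pool.Agent.K4H11.CV

open Pool.Agent.K4H13.CV
open W388.LV (SF)

/-! ### constructors -/

theorem lm_mk {k : ℤ} (f : ℍ → ℂ) (h1 : MDifferentiable 𝓘(ℂ) 𝓘(ℂ) f)
    (h2 : ∀ γ : SL(2, ℤ), f ∣[k] γ = f) (h3 : IsBoundedAtImInfty f) : LM k f := by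
  refine ⟨{ toFun := f
            slash_action_eq' := ?_
            holo' := h1
            bdd_at_cusps' := ?_ }, fun z => rfl⟩
  · rintro _ ⟨γ, rfl⟩
    exact h2 γ
  · intro c hc
    rw [Subgroup.IsArithmetic.isCusp_iff_isCusp_SL2Z] at hc
    rw [OnePoint.isBoundedAt_iff_forall_SL2Z hc]
    intro γ _
    change IsBoundedAtImInfty (f ∣[k] γ)
    rw [h2]
    exact h3

/-- cusp forms -/
noncomputable def mkCusp {N : ℕ} [NeZero N] {k : ℤ} (f : ℍ → ℂ)
    (h1 : MDifferentiable 𝓘(ℂ) 𝓘(ℂ) f) (h2 : ∀ γ ∈ Gamma0 N, f ∣[k] γ = f)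
    (h3 : ∀ γ : SL(2, ℤ), IsZeroAtImInfty (f ∣[k] γ)) : SF N k where
  toFun := f
  slash_action_eq' := by
    rintro _ ⟨γ, hγ, rfl⟩
    exact h2 γ hγ
  holo' := h1
  zero_at_cusps' := by
    intro c hc
    rw [Subgroup.IsArithmetic.isCusp_iff_isCusp_SL2Z] at hc
    rw [OnePoint.isZeroAt_iff_forall_SL2Z hc]
    intro γ _
    exact h3 γ

theorem lm_neg {k : ℤ} (hk : k < 0) {A : ℍ → ℂ} (hA : LM k A) (z : ℍ) : A z = 0 := by
  obtain ⟨g, hg⟩ := hA
  rw [hg, ModularFormClass.levelOne_neg_weight_eq_zero hk g]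
  rfl

theorem lm_one {A : ℍ → ℂ} (hA : LM 1 A) (z : ℍ) : A z = 0 := by
  obtain ⟨g, hg⟩ := hA
  rw [hg, ModularForm.levelOne_odd_weight_eq_zero (by decide) g]
  rfl

theorem lm_two {A : ℍ → ℂ} (hA : LM 2 A) (z : ℍ) : A z = 0 := by
  obtain ⟨g, hg⟩ := hA
  have h := ModularForm.levelOne_weight_two_rank_zero
  rw [rank_zero_iff] at h
  rw [hg, Subsingleton.elim g 0]
  rfl

theorem lm_zero {A : ℍ → ℂ} (hA : LM 0 A) : ∃ c : ℂ, ∀ z, A z = c := by
  obtain ⟨g, hg⟩ := hA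
  obtain ⟨c, hc⟩ := ModularFormClass.levelOne_weight_zero_const g
  refine ⟨c, fun z => ?_⟩
  rw [hg, hc]
  rfl

theorem lm_const (c : ℂ) : LM 0 (fun _ => c) := ⟨ModularForm.const c, fun _ => rfl⟩

theorem lm_zero' (k : ℤ) : LM k (fun _ => 0) := ⟨0, fun _ => rfl⟩

/-! ### components -/

variable {N : ℕ}

theorem comp_slash {k : ℤ} {F : ℍ → XX N → ℂ} (hF : VM N k F) (γ : SL(2, ℤ)) (x : XX N) :
    ((fun z => F z x) ∣[k] γ) = fun z => F z (γ⁻¹ • x) := by
  ext z
  rw [ModularForm.SL_slash_apply, hF.mod, zpow_neg]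
  have hd := zpow_ne_zero k (denom_ne_zero γ z)
  field_simp

theorem sum_slash [Fintype (XX N)] {k : ℤ} {F : ℍ → XX N → ℂ} (hF : VM N k F) (γ : SL(2, ℤ)) :
    ((fun z => ∑ x, F z x) ∣[k] γ) = fun z => ∑ x, F z x := by
  ext z
  rw [ModularForm.SL_slash_apply, zpow_neg]
  have hd := zpow_ne_zero k (denom_ne_zero γ z)
  have : ∑ x, F (γ • z) x = (denom γ z) ^ k * ∑ x, F z x := by
    rw [Finset.mul_sum, ← Equiv.sum_comp (MulAction.toPerm γ⁻¹ : Equiv.Perm (XX N))
      (fun x => (denom γ z) ^ k * F z x)]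
    exact Finset.sum_congr rfl fun x _ => hF.mod γ z x
  rw [this]
  field_simp

theorem bdd_sum {ι : Type*} (s : Finset ι) (f : ι → ℍ → ℂ)
    (h : ∀ i ∈ s, IsBoundedAtImInfty (f i)) : IsBoundedAtImInfty (fun z => ∑ i ∈ s, f i z) := by
  classical
  induction s using Finset.induction_on with
  | empty => simpa using bdd_const 0
  | insert a s ha ih =>
    have := bdd_add (h a (Finset.mem_insert_self a s))
      (ih fun i hi => h i (Finset.mem_insert_of_mem hi))
    simpa [Finset.sum_insert ha] using this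

theorem sum_zero [Fintype (XX N)] {F : ℍ → XX N → ℂ} (hF : VM N 2 F) (z : ℍ) :
    ∑ x, F z x = 0 := by
  refine lm_two (lm_mk (fun z => ∑ x, F z x) ?_ (sum_slash hF) ?_) z
  · have := MDifferentiable.sum (t := Finset.univ) (f := fun x z => F z x) (fun x _ => hF.holo x)
    convert this using 1
    ext z
    simp
  · exact bdd_sum _ _ fun x _ => hF.bdd x

/-! ### limits at infinity -/

theorem T_pow_smul (x : XX N) : (ModularGroup.T ^ (N : ℤ)) • x = x := by
  obtain ⟨g, rfl⟩ := QuotientGroup.mk_surjective x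
  change (QuotientGroup.mk (ModularGroup.T ^ (N : ℤ) * g) : XX N) = QuotientGroup.mk g
  rw [QuotientGroup.eq, Gamma0_mem]
  have h1 : (((ModularGroup.T ^ (N : ℤ) * g)⁻¹ * g) 1 0 : ℤ) = (N : ℤ) * (g 1 0) ^ 2 := by
    rw [mul_inv_rev, ← zpow_neg, mul_assoc]
    have h2 := ModularGroup.coe_T_zpow (-(N : ℤ))
    simp only [Matrix.SpecialLinearGroup.coe_mul, Matrix.mul_apply, Fin.sum_univ_two, h2,
      Matrix.SpecialLinearGroup.coe_inv, Matrix.adjugate_fin_two]
    simp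
    ring
  rw [h1]
  simp

theorem denom_T_zpow (n : ℤ) (z : ℍ) :
    denom ((ModularGroup.T ^ n : SL(2, ℤ)) : GL (Fin 2) ℝ) z = 1 := by
  have h2 := ModularGroup.coe_T_zpow n
  have h3 : (ModularGroup.T ^ n : SL(2, ℤ)) 1 0 = 0 := by
    change ((ModularGroup.T ^ n : SL(2, ℤ)) : Matrix (Fin 2) (Fin 2) ℤ) 1 0 = 0
    rw [h2]
    rfl
  have h4 : (ModularGroup.T ^ n : SL(2, ℤ)) 1 1 = 1 := by
    change ((ModularGroup.T ^ n : SL(2, ℤ)) : Matrix (Fin 2) (Fin 2) ℤ) 1 1 = 1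
    rw [h2]
    rfl
  have h5 := ModularGroup.denom_apply (ModularGroup.T ^ n) z
  rw [h5, h3, h4]
  simp

theorem F_T_zpow {k : ℤ} {F : ℍ → XX N → ℂ} (hF : VM N k F) (n : ℤ) (z : ℍ) (x : XX N) :
    F (ModularGroup.T ^ n • z) x = F z ((ModularGroup.T ^ n)⁻¹ • x) := by
  rw [hF.mod, denom_T_zpow, one_zpow, one_mul]

theorem exists_lim [NeZero N] {k : ℤ} {F : ℍ → XX N → ℂ} (hF : VM N k F) (x : XX N) :
    ∃ b : ℂ, Tendsto (fun z => F z x) atImInfty (𝓝 b) := by
  have hN : 0 < (N : ℝ) := by exact_mod_cast Nat.pos_of_ne_zero (NeZero.ne N)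
  have hper : Function.Periodic ((fun z => F z x) ∘ ofComplex) (N : ℝ) := by
    intro w
    simp only [Function.comp]
    by_cases hw : 0 < w.im
    · have h1 : ofComplex (w + ((N : ℝ) : ℂ)) = ModularGroup.T ^ (N : ℤ) • ofComplex w := by
        ext
        have h2 : 0 < (w + ((N : ℝ) : ℂ)).im := by simpa using hw
        rw [ModularGroup.coe_T_zpow_smul_eq, ofComplex_apply_of_im_pos h2,
          ofComplex_apply_of_im_pos hw]
        simp
      rw [h1, F_T_zpow hF]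
      congr 1
      rw [inv_smul_eq_iff, T_pow_smul]
    · rw [not_lt] at hw
      have : (w + ((N : ℝ) : ℂ)).im ≤ 0 := by simpa using hw
      rw [ofComplex_apply_of_im_nonpos this, ofComplex_apply_of_im_nonpos hw]
  have h1 := Function.Periodic.tendsto_at_I_inf hN hper
    (eventually_of_mem (preimage_mem_comap (Ioi_mem_atTop 0))
        (fun z hz ↦ UpperHalfPlane.mdifferentiableAt_iff.mp (hF.holo x ⟨z, hz⟩)))
      ((hF.bdd x).comp_tendsto tendsto_comap_im_ofComplex)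
  have h2 := h1.comp tendsto_coe_atImInfty
  refine ⟨_, h2.congr fun z => ?_⟩
  simp [Function.comp]

theorem lim_T {k : ℤ} {F : ℍ → XX N → ℂ} (hF : VM N k F) (b : XX N → ℂ)
    (hb : ∀ x, Tendsto (fun z => F z x) atImInfty (𝓝 (b x))) (n : ℤ) (x : XX N) :
    b (ModularGroup.T ^ n • x) = b x := by
  have h1 : Tendsto (fun z : ℍ => ModularGroup.T ^ (-n) • z) atImInfty atImInfty := by
    have : Tendsto (UpperHalfPlane.im) atImInfty atTop := tendsto_comap
    rw [atImInfty, tendsto_comap_iff]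
    refine this.congr fun z => ?_
    simp only [Function.comp]
    rw [ModularGroup.im_T_zpow_smul]
  have h2 := (hb x).comp h1
  refine tendsto_nhds_unique (hb _) (h2.congr fun z => ?_)
  simp only [Function.comp]
  rw [F_T_zpow hF, zpow_neg, inv_inv]

end Pool.Agent.K4H11.CV
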